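import Pool.Agent.H39.HW.SBas

/-!
# Project HW, scheme side: part CLD
-/

set_option autoImplicit false
open Classical Finset

namespace Pool.Agent.H96.HW

open Pool.Agent.H39.HW Pool.Agent.H39.HW.Sc

variable {x : Prm}

/-- every block has at least `w` labels -/
theorem ln_ge (hB : S_BLK) (hx : Par x) {β : ℕ} (hβ : β < x.B) : x.w ≤ ln x.st β := by
  obtain ⟨-, -, -, -, h1, h2, h3, h4⟩ := hB x hx
  have hwv := hx.wv
  by_cases c1 : β < x.b0
  · rw [h1 β c1]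
  · by_cases c2 : β < x.b1
    · rw [h2 β (by omega) c2]; omega
    · by_cases c3 : β + 1 < x.B
      · rw [h3 β (by omega) c3]
      · exact (h4 β (by omega)).1

/-- every block has at most `v + M` labels -/
theorem ln_le (hB : S_BLK) (hx : Par x) {β : ℕ} (hβ : β < x.B) : ln x.st β ≤ x.v + x.M := by
  obtain ⟨-, -, -, -, h1, h2, h3, h4⟩ := hB x hx
  have hwv := hx.wv
  by_cases c1 : β < x.b0
  · rw [h1 β c1]; omega
  · by_cases c2 : β < x.b1
    · rw [h2 β (by omega) c2]; omega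
    · by_cases c3 : β + 1 < x.B
      · rw [h3 β (by omega) c3]; omega
      · have := (h4 β (by omega)).2; omega

theorem lnD_ge (hB : S_BLK) (hx : Par x) {β : ℕ} (hβ : β < x.B) :
    (x.w : ℝ) / x.D ≤ (ln x.st β : ℝ) / x.D := by
  have h1 := ln_ge hB hx hβ
  have h2 := hx.Dpos
  have h3 : (x.w : ℝ) ≤ (ln x.st β : ℝ) := by exact_mod_cast h1
  exact div_le_div_of_nonneg_right h3 h2.le

theorem lnD_le (hB : S_BLK) (hx : Par x) {β : ℕ} (hβ : β < x.B) :
    (ln x.st β : ℝ) / x.D ≤ 2 * x.μ := by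
  have h1 := ln_le hB hx hβ
  have h2 := hx.Dpos
  have h3 : (ln x.st β : ℝ) ≤ (x.v : ℝ) + x.M := by exact_mod_cast h1
  have h4 : (ln x.st β : ℝ) / x.D ≤ ((x.v : ℝ) + x.M) / x.D :=
    div_le_div_of_nonneg_right h3 h2.le
  have h5 : ((x.v : ℝ) + x.M) / x.D = (x.v : ℝ) / x.D + (x.M : ℝ) / x.D := by rw [add_div]
  have h6 : (x.M : ℝ) / x.D ≤ ((x.M : ℝ) + 1) / x.D :=
    div_le_div_of_nonneg_right (by linarith) h2.le
  have h7 := hx.Msmall
  have h8 := hx.ll_le2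
  have h9 := hx.m0
  have h10 : x.η * x.θ * x.μ / 10 ^ 9 ≤ 1 / 100 * x.μ := by
    have a1 := hx.eta_le
    have a2 := hx.th_le
    have a3 := hx.n0
    have a4 := hx.t0
    have a5 : x.η * x.θ ≤ 1 * 1 := mul_le_mul (by linarith) (by linarith) a4.le (by norm_num)
    have a6 : x.η * x.θ * x.μ ≤ 1 * x.μ := mul_le_mul_of_nonneg_right (by linarith) h9.le
    linarith
  linarith

theorem mem_cls {a β : ℕ} : β ∈ x.cls a ↔ β < x.B ∧ Av x.st x.p a β ∧ β ≠ sm x.B a a ∧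
    ¬ (β ∈ x.mid ∧ (β - x.b0) / x.W = x.win a ∧ 4 * x.h ^ 2 ≤ (β - x.b0) % x.L ∧
      (β - x.b0) % x.L < 4 * x.h ^ 2 + 2 * x.h) := by
  have e1 : x.cls a = (((range x.B).filter fun β => Av x.st x.p a β).erase (sm x.B a a)) \
    (range (2 * x.h)).biUnion fun P => x.S P a := rfl
  rw [e1, mem_sdiff, mem_erase, mem_filter, mem_range, mem_biUnion]
  constructor
  · rintro ⟨⟨h1, h2, h3⟩, h4⟩
    refine ⟨h2, h3, h1, ?_⟩
    rintro ⟨h5, h6, h7, h8⟩
    apply h4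
    refine ⟨(β - x.b0) % x.L - 4 * x.h ^ 2, ?_, ?_⟩
    · rw [mem_range]; omega
    · unfold Prm.S
      rw [mem_filter]
      exact ⟨h5, h6, by omega⟩
  · rintro ⟨h1, h2, h3, h4⟩
    refine ⟨⟨h3, h1, h2⟩, ?_⟩
    rintro ⟨P, hP, hP2⟩
    rw [mem_range] at hP
    unfold Prm.S at hP2
    rw [mem_filter] at hP2
    exact h4 ⟨hP2.1, hP2.2.1, by omega, by omega⟩

theorem t_CLD (hB : S_BLK) (hA : S_AVA) (hM : S_MMD) (hW : S_WIN) : S_CLD := by
  intro x hx a ha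
  obtain ⟨m1, m2, m3, m4⟩ := (hM x hx).2 a ha
  have w1 := (hW x hx a ha).1
  have key : x.mm a ⊆ x.cls a := by
    intro β hβ
    rw [m1] at hβ
    obtain ⟨b1, b2, b3⟩ := hβ
    rw [mem_cls]
    refine ⟨b1, (hA x hx a ha β b1).1 b2, b3, ?_⟩
    rintro ⟨h5, h6, -, -⟩
    exact b2 (w1 β h5 h6).2.1
  have d1 : ∀ β ∈ x.cls a, x.adj a β → x.dem a β = (ln x.st β : ℝ) / x.D := by
    intro β hβ hadj
    have : β ∉ x.mm a := by
      rw [m1]
      rintro ⟨-, h, -⟩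
      exact h hadj
    show (ln x.st β : ℝ) / x.D - (if β ∈ x.mm a then x.μ else 0) = _
    rw [if_neg this, sub_zero]
  have d2 : ∀ β ∈ x.cls a, ¬ x.adj a β → x.dem a β = (ln x.st β : ℝ) / x.D - x.μ := by
    intro β hβ hadj
    rw [mem_cls] at hβ
    have : β ∈ x.mm a := by
      rw [m1]
      exact ⟨hβ.1, hadj, hβ.2.2.1⟩
    show (ln x.st β : ℝ) / x.D - (if β ∈ x.mm a then x.μ else 0) = _
    rw [if_pos this]
  refine ⟨fun β => mem_cls, key, d1, d2, ?_⟩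
  intro β hβ
  have hlt : β < x.B := (mem_cls.mp hβ).1
  have l1 := lnD_ge hB hx hlt
  have l2 := lnD_le hB hx hlt
  have l3 := hx.ls_ge
  have l4 := hx.m0
  have l5 := hx.tmpos
  have l6 := hx.th_le
  have l7 : x.θ * x.μ ≤ 1 * x.μ := mul_le_mul_of_nonneg_right (by linarith) l4.le
  by_cases hadj : x.adj a β
  · rw [d1 β hβ hadj]
    constructor
    · nlinarith
    · exact l2
  · rw [d2 β hβ hadj]
    constructor
    · nlinarith
    · linarith

end Pool.Agent.H96.HW
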