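import Pool.Agent.H39.HW.SBas

/-!
# Project HW, scheme side: part DJN
-/

set_option autoImplicit false
open Classical Finset

namespace Pool.Agent.H96.HW

open Pool.Agent.H39.HW Pool.Agent.H39.HW.Sc

variable {x : Prm}

/-- the demand of an adjacent middle class -/
theorem dem_mid (hB : S_BLK) (hC : S_CLD) (hx : Par x) {a β : ℕ} (ha : a ∈ x.R)
    (h1 : β ∈ x.cls a) (h2 : β ∈ x.mid) (h3 : x.adj a β) :
    x.dem a β = (x.v : ℝ) / x.D := by
  rw [(hC x hx a ha).2.2.1 β h1 h3]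
  have h4 := Finset.mem_Ico.mp h2
  rw [(hB x hx).2.2.2.2.2.1 β h4.1 h4.2]

theorem DJ_eq (hB : S_BLK) (hC : S_CLD) (hx : Par x) {a : ℕ} (ha : a ∈ x.R) :
    x.DJ a = ((x.Fx a).card : ℝ) * ((x.v : ℝ) / x.D) := by
  have h1 : x.DJ a = ∑ β ∈ x.Fx a, (x.v : ℝ) / x.D := by
    apply Finset.sum_congr rfl
    intro β hβ
    unfold Prm.Fx at hβ
    rw [mem_filter] at hβ
    exact dem_mid hB hC hx ha hβ.1 hβ.2.1 hβ.2.2.1
  rw [h1, sum_const, nsmul_eq_mul]

theorem DN_eq (hB : S_BLK) (hC : S_CLD) (hx : Par x) {a : ℕ} (ha : a ∈ x.R) :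
    x.DN a = ((x.Nx a).card : ℝ) * ((x.v : ℝ) / x.D) := by
  have h1 : x.DN a = ∑ β ∈ x.Nx a, (x.v : ℝ) / x.D := by
    apply Finset.sum_congr rfl
    intro β hβ
    unfold Prm.Nx at hβ
    rw [mem_filter] at hβ
    exact dem_mid hB hC hx ha hβ.1 hβ.2.1 hβ.2.2.1
  rw [h1, sum_const, nsmul_eq_mul]

/-- a class adjacent to the row lies in one of two short intervals -/
theorem cls_adj (hA : S_AVA) (hC : S_CLD) (hx : Par x) {a β : ℕ} (ha : a ∈ x.R)
    (h1 : β ∈ x.cls a) :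
    (a ≤ β → a + x.g + 1 ≤ β) ∧ (β ≤ a → β + x.g + 1 ≤ a) := by
  have h3 := ((hC x hx a ha).1 β).mp h1
  have h4 := hA x hx a ha β h3.1
  exact ⟨fun h => h4.2.1 h h3.2.1, fun h => h4.2.2.1 h h3.2.1⟩

theorem card_above (hA : S_AVA) (hC : S_CLD) (hx : Par x) {a : ℕ} (ha : a ∈ x.R)
    (T : Finset ℕ) (hT : ∀ β ∈ T, β ∈ x.cls a ∧ x.adj a β ∧ ¬ β < a) :
    T.card ≤ x.K - x.g := by
  have hsub : T ⊆ Finset.Icc (a + x.g + 1) (a + x.K) := by
    intro β hβ
    obtain ⟨h1, h2, h3⟩ := hT β hβ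
    have h4 := (cls_adj hA hC hx ha h1).1 (by omega)
    rw [Finset.mem_Icc]
    exact ⟨h4, h2.1⟩
  have h5 := Finset.card_le_card hsub
  rw [Nat.card_Icc] at h5
  omega

theorem card_below (hA : S_AVA) (hC : S_CLD) (hx : Par x) {a : ℕ} (ha : a ∈ x.R)
    (T : Finset ℕ) (hT : ∀ β ∈ T, β ∈ x.cls a ∧ x.adj a β ∧ β < a) :
    T.card ≤ x.K - x.g := by
  have haR := hx.mem_R.mp ha
  have hg := hx.g1
  have hsub : T ⊆ Finset.Icc (a - x.K) (a - x.g - 1) := by
    intro β hβ
    obtain ⟨h1, h2, h3⟩ := hT β hβ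
    have h4 := (cls_adj hA hC hx ha h1).2 (by omega)
    have h5 := h2.2
    rw [Finset.mem_Icc]
    constructor <;> omega
  have h5 := Finset.card_le_card hsub
  rw [Nat.card_Icc] at h5
  omega

/-- `J ≤ g` -/
theorem J_le_g (hx : Par x) : x.J ≤ x.g := by
  by_contra hcon
  have h1 : x.g + 1 ≤ x.J := by omega
  have h2 : (x.g : ℝ) + 1 ≤ x.J := by exact_mod_cast h1
  have h3 := hx.m0
  have h4 := hx.Kg_le
  have h5 := hx.Kmu.1
  have h6 := hx.Jmu.2
  have h7 := hx.c1
  have h8 := hx.n1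
  have h9 := hx.n0
  have h10 : ((x.g : ℝ) + 1) * x.μ ≤ x.J * x.μ := mul_le_mul_of_nonneg_right h2 h3.le
  nlinarith

/-- number of reserved blocks in the window of the row -/
theorem card_res (hW : S_WIN) (hx : Par x) {a : ℕ} (ha : a ∈ x.R) :
    (x.mid.filter fun β => (β - x.b0) / x.W = x.win a ∧ 4 * x.h ^ 2 ≤ (β - x.b0) % x.L ∧
      (β - x.b0) % x.L < 4 * x.h ^ 2 + 2 * x.h).card ≤ 2 * x.h * x.q := by
  have hsub : (x.mid.filter fun β => (β - x.b0) / x.W = x.win a ∧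
      4 * x.h ^ 2 ≤ (β - x.b0) % x.L ∧ (β - x.b0) % x.L < 4 * x.h ^ 2 + 2 * x.h) ⊆
      (range (2 * x.h)).biUnion fun P => x.S P a := by
    intro β hβ
    rw [mem_filter] at hβ
    obtain ⟨h5, h6, h7, h8⟩ := hβ
    rw [mem_biUnion]
    refine ⟨(β - x.b0) % x.L - 4 * x.h ^ 2, ?_, ?_⟩
    · rw [mem_range]; omega
    · unfold Prm.S
      rw [mem_filter]
      exact ⟨h5, h6, by omega⟩
  refine (Finset.card_le_card hsub).trans ?_
  refine Finset.card_biUnion_le.trans ?_
  have h1 : ∀ P ∈ range (2 * x.h), (x.S P a).card = x.q := fun P hP =>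
    (hW x hx a ha).2.2.1 P (mem_range.mp hP)
  rw [Finset.sum_congr rfl h1, sum_const, card_range, smul_eq_mul]

/-- lower bound for the number of flexible classes -/
theorem card_Fx (hA : S_AVA) (hM : S_MMD) (hW : S_WIN) (hC : S_CLD) (hx : Par x)
    {a : ℕ} (ha : a ∈ x.R) : x.K ≤ (x.Fx a).card + x.g + x.e + 2 * x.h * x.q := by
  have haR := hx.mem_R.mp ha
  have hJg := J_le_g hx
  have hKg := hx.Kg
  have hb := hx.b0_lt_b1
  have hB := hx.b1_le_B
  have hb0 : x.b0 = x.K + x.J := rfl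
  set Rs := x.mid.filter fun β => (β - x.b0) / x.W = x.win a ∧ 4 * x.h ^ 2 ≤ (β - x.b0) % x.L ∧
      (β - x.b0) % x.L < 4 * x.h ^ 2 + 2 * x.h with hRs
  have hRc : Rs.card ≤ 2 * x.h * x.q := card_res hW hx ha
  have hne := ((hM x hx).2 a ha).2.2.2
  -- the interval
  have main : ∀ I : Finset ℕ, (∀ β ∈ I, β ∈ x.mid ∧ x.adj a β ∧ (x.b1 ≤ a + x.K ↔ β < a) ∧
      Av x.st x.p a β) → I.card ≤ (x.Fx a).card + 2 * x.h * x.q := by
    intro I hI
    have hsub : I ⊆ x.Fx a ∪ Rs := by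
      intro β hβ
      obtain ⟨i1, i2, i3, i4⟩ := hI β hβ
      by_cases hr : β ∈ Rs
      · exact mem_union_right _ hr
      · apply mem_union_left
        unfold Prm.Fx
        rw [mem_filter]
        refine ⟨?_, i1, i2, i3⟩
        rw [(hC x hx a ha).1]
        have i5 := Finset.mem_Ico.mp i1
        refine ⟨by omega, i4, ?_, ?_⟩
        · intro he
          rw [he] at i2
          exact hne i2
        · rintro ⟨j1, j2, j3, j4⟩
          apply hr
          rw [hRs, mem_filter]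
          exact ⟨j1, j2, j3, j4⟩
    have := (Finset.card_le_card hsub).trans (Finset.card_union_le _ _)
    omega
  by_cases hRR : x.b1 ≤ a + x.K
  · have := main (Finset.Icc (a - x.K) (a - x.g - 1 - x.e)) (by
      intro β hβ
      rw [Finset.mem_Icc] at hβ
      have hmid : β ∈ x.mid := by
        unfold Prm.mid
        rw [Finset.mem_Ico]
        constructor <;> omega
      have i5 := Finset.mem_Ico.mp hmid
      refine ⟨hmid, ⟨by omega, by omega⟩, ⟨fun _ => by omega, fun _ => hRR⟩, ?_⟩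
      exact (hA x hx a ha β (by omega)).2.2.2.2.1 i5.1 i5.2 (by omega))
    rw [Nat.card_Icc] at this
    omega
  · have := main (Finset.Icc (a + x.g + 1 + x.e) (a + x.K)) (by
      intro β hβ
      rw [Finset.mem_Icc] at hβ
      have hmid : β ∈ x.mid := by
        unfold Prm.mid
        rw [Finset.mem_Ico]
        constructor <;> omega
      have i5 := Finset.mem_Ico.mp hmid
      refine ⟨hmid, ⟨by omega, by omega⟩, ⟨fun h => absurd h hRR, fun h => by omega⟩, ?_⟩
      exact (hA x hx a ha β (by omega)).2.2.2.1 i5.1 i5.2 (by omega))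
    rw [Nat.card_Icc] at this
    omega

/-- lower bound for the number of the other adjacent middle classes -/
theorem card_Nx (hA : S_AVA) (hM : S_MMD) (hW : S_WIN) (hC : S_CLD) (hx : Par x)
    {a : ℕ} (ha : a ∈ x.R) (h0 : x.b0 + x.K ≤ a) (h1 : a + x.K < x.b1) :
    x.K - x.g ≤ (x.Nx a).card := by
  have haR := hx.mem_R.mp ha
  have hKg := hx.Kg
  have hB := hx.b1_le_B
  have hne := ((hM x hx).2 a ha).2.2.2
  have hsub : Finset.Icc (a - x.K) (a - x.g - 1) ⊆ x.Nx a := by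
    intro β hβ
    rw [Finset.mem_Icc] at hβ
    have hmid : β ∈ x.mid := by
      unfold Prm.mid
      rw [Finset.mem_Ico]
      constructor <;> omega
    have i5 := Finset.mem_Ico.mp hmid
    have hadj : x.adj a β := ⟨by omega, by omega⟩
    unfold Prm.Nx
    rw [mem_filter]
    refine ⟨?_, hmid, hadj, ?_⟩
    · rw [(hC x hx a ha).1]
      refine ⟨by omega, ?_, ?_, ?_⟩
      · exact (hA x hx a ha β (by omega)).2.2.2.2.2.2 i5.1 i5.2 (by omega) (by omega) (by omega)
      · intro he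
        rw [he] at hadj
        exact hne hadj
      · rintro ⟨j1, j2, j3, j4⟩
        have := ((hW x hx a ha).1 β j1 j2).2.2
        have := this.mpr (by omega)
        omega
    · intro h
      have := h.mpr (by omega)
      omega
  have := Finset.card_le_card hsub
  rw [Nat.card_Icc] at this
  omega

theorem t_DJN (hB : S_BLK) (hA : S_AVA) (hM : S_MMD) (hW : S_WIN) (hC : S_CLD) : S_DJN := by
  intro x hx a ha
  have haR := hx.mem_R.mp ha
  have hKg := hx.Kg
  have hbb := hx.b0_lt_b1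
  have hD := hx.Dpos
  have hv0 : 0 ≤ (x.v : ℝ) / x.D := by positivity
  have hgK : (x.g : ℝ) ≤ x.K := by exact_mod_cast hx.g1
  have up : ∀ n : ℕ, n ≤ x.K - x.g → (n : ℝ) * ((x.v : ℝ) / x.D) ≤
      (3 / 5 * x.c + x.η) * x.θ := by
    intro n hn
    have h1 : (n : ℝ) ≤ (x.K : ℝ) - x.g := by
      have : n + x.g ≤ x.K := by omega
      have : (n : ℝ) + x.g ≤ x.K := by exact_mod_cast this
      linarith
    exact (mul_le_mul_of_nonneg_right h1 hv0).trans hx.X_le
  have cF : (x.Fx a).card ≤ x.K - x.g := by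
    by_cases hRR : x.b1 ≤ a + x.K
    · apply card_below hA hC hx ha
      intro β hβ
      unfold Prm.Fx at hβ
      rw [mem_filter] at hβ
      exact ⟨hβ.1, hβ.2.2.1, hβ.2.2.2.mp hRR⟩
    · apply card_above hA hC hx ha
      intro β hβ
      unfold Prm.Fx at hβ
      rw [mem_filter] at hβ
      exact ⟨hβ.1, hβ.2.2.1, fun h => hRR (hβ.2.2.2.mpr h)⟩
  have cN : (x.Nx a).card ≤ x.K - x.g := by
    by_cases hRR : x.b1 ≤ a + x.K
    · apply card_above hA hC hx ha
      intro β hβ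
      unfold Prm.Nx at hβ
      rw [mem_filter] at hβ
      exact ⟨hβ.1, hβ.2.2.1, fun h => hβ.2.2.2 ⟨fun _ => h, fun _ => hRR⟩⟩
    · apply card_below hA hC hx ha
      intro β hβ
      unfold Prm.Nx at hβ
      rw [mem_filter] at hβ
      refine ⟨hβ.1, hβ.2.2.1, ?_⟩
      by_contra h
      exact hβ.2.2.2 ⟨fun h' => absurd h' hRR, fun h' => absurd h' h⟩
  have eJ := DJ_eq hB hC hx ha
  have eN := DN_eq hB hC hx ha
  refine ⟨?_, ?_, ?_, ?_, ?_, ?_, ?_⟩
  · have h1 := card_Fx hA hM hW hC hx ha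
    have h2 : (x.K : ℝ) - x.g - x.e - 2 * x.h * x.q ≤ (x.Fx a).card := by
      have : (x.K : ℝ) ≤ (x.Fx a).card + x.g + x.e + 2 * x.h * x.q := by exact_mod_cast h1
      linarith
    have h3 := mul_le_mul_of_nonneg_right h2 hv0
    have h4 := hx.X_ge
    have h5 := hx.q3'
    have h6 := hx.e3
    have h7 := hx.ll_le2
    have h8 : (x.e : ℝ) * ((x.v : ℝ) / x.D) ≤ 101 / 100 * (x.η * x.θ) := by
      have a1 : (x.e : ℝ) * ((x.v : ℝ) / x.D) ≤ x.e * (101 / 100 * x.μ) :=
        mul_le_mul_of_nonneg_left h7 (Nat.cast_nonneg _)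
      have a2 := hx.m0
      have a3 : (x.e : ℝ) * x.μ ≤ x.η * x.θ := by nlinarith
      nlinarith
    have h9 : 0 < x.η * x.θ := mul_pos hx.n0 hx.t0
    rw [eJ]
    nlinarith
  · rw [eJ]
    exact up _ cF
  · rw [eN]
    positivity
  · rw [eN]
    exact up _ cN
  · intro h
    have : x.Nx a = ∅ := by
      rw [Finset.eq_empty_iff_forall_notMem]
      intro β hβ
      unfold Prm.Nx at hβ
      rw [mem_filter] at hβ
      obtain ⟨h1, h2, h3, h4⟩ := hβ
      have h5 := Finset.mem_Ico.mp h2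
      have hRR : x.b1 ≤ a + x.K := by omega
      have h6 : ¬ β < a := fun h => h4 ⟨fun _ => h, fun _ => hRR⟩
      have h7 := (cls_adj hA hC hx ha h1).1 (by omega)
      omega
    show ∑ β ∈ x.Nx a, x.dem a β = 0
    rw [this, sum_empty]
  · intro h
    have : x.Nx a = ∅ := by
      rw [Finset.eq_empty_iff_forall_notMem]
      intro β hβ
      unfold Prm.Nx at hβ
      rw [mem_filter] at hβ
      obtain ⟨h1, h2, h3, h4⟩ := hβ
      have h5 := Finset.mem_Ico.mp h2
      have hRR : ¬ x.b1 ≤ a + x.K := by omega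
      have h6 : β < a := by
        by_contra h'
        exact h4 ⟨fun h'' => absurd h'' hRR, fun h'' => absurd h'' h'⟩
      have h7 := (cls_adj hA hC hx ha h1).2 (by omega)
      omega
    show ∑ β ∈ x.Nx a, x.dem a β = 0
    rw [this, sum_empty]
  · intro h0 h1
    have h2 := card_Nx hA hM hW hC hx ha h0 h1
    have h3 : (x.K : ℝ) - x.g ≤ (x.Nx a).card := by
      have : x.K ≤ (x.Nx a).card + x.g := by omega
      have : (x.K : ℝ) ≤ (x.Nx a).card + x.g := by exact_mod_cast this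
      linarith
    rw [eN]
    exact hx.X_ge.trans (mul_le_mul_of_nonneg_right h3 hv0)

end Pool.Agent.H96.HW
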